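import Pool.Agent.Run7.h380.IN.Count

/-!
# Tractability and type clones: almost all injective templates over ordered structures

Let `Δ` be an infinite homogeneous structure in a finite relational signature, which is ordered: its
automorphism group `G` preserves a linear order. Suppose that no element is fixed by all the
automorphisms. An injective relation is a `G`-invariant relation all of whose tuples have pairwise
distinct entries. For `Δ = (ℚ, <)` these are the relations of the ordering CSPs.

All but a doubly exponentially small proportion of the injective relations of arity `k` satisfy: every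
template which consists of this relation and finitely many injective relations of arity at most `r`
pp-defines all the injective invariant relations of arity at most `r` and pp-constructs `K_3`. So its
constraint satisfaction problem is NP-complete (`Δ` finitely bounded), and the implication of the question
is true for it: if `P ≠ NP` it is not tractable, and if `P = NP` all the type clones correspond to
tractable problems. The same holds for random injective relations of several arities between `n` and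
`n'` with a joint law of finite energy `ε`.

All these templates have essential polymorphisms in the case of `(ℚ, <)` (they are preserved by the
lexicographic order embeddings `ℚ² → ℚ`), and they form a vanishing proportion of all the invariant
templates, so they are not covered by the theorems about almost all templates, which identify
variables.
-/

namespace Pool.Agent.Results.MP_436c39_lc.InjectiveTemplates

open Pool.Agent.W994.AR
open Pool.Agent.N455.CS (IsLaw prob FiniteEnergy)
open Run7.h380.IN (IOmega irel InjRel)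

/-- Every template which consists of finitely many invariant injective relations `Γ` of arity at
most `r` and of at least one of the relations `R j` pp-defines all the invariant injective relations
of arity at most `r` and pp-constructs `K_3`. -/
def AllHard {B : Type} (G : Subgroup (Equiv.Perm B)) (r : ℕ) {t : ℕ} {k : Fin t → ℕ}
    (R : ∀ j, Set (Fin (k j) → B)) : Prop :=
  ∀ (ι : Type) [Finite ι] (arΓ : ι → ℕ) (Γ : Str ι arΓ B), (∀ l, arΓ l ≤ r) →
    (∀ l, Invar G (Γ l)) → (∀ l, ∀ u ∈ Γ l, Function.Injective u) →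
    ∀ (s : ℕ) (e : Fin s → Fin t), 1 ≤ s →
      (∀ (V : Type) [Finite V], Nat.card V ≤ r → ∀ S : Set (V → B), Invar G S →
        (∀ u ∈ S, Function.Injective u) → PPDef (expand Γ (fun j => R (e j))) S) ∧
      PPConstructsK3 (expand Γ (fun j => R (e j)))

/-- A linear order preserved by the group. -/
def Ordered {B : Type} (G : Subgroup (Equiv.Perm B)) : Prop :=
  ∃ L : B → B → Prop, IsStrictTotalOrder B L ∧ ∀ g ∈ G, ∀ x y, L x y ↔ L (g x) (g y)

theorem tournament {B : Type} {L : B → B → Prop}
    (hL : IsStrictTotalOrder B L) : ∀ x y, x ≠ y → (L x y ↔ ¬ L y x) := by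
  intro x y hxy
  constructor
  · intro h h'
    exact irrefl_of L x (trans_of L h h')
  · intro h
    rcases trichotomous_of L x y with h1 | h1 | h1
    · exact h1
    · exact absurd h1 hxy
    · exact absurd h1 h

/-- if no element is fixed by all the automorphisms then all the orbits are infinite -/
theorem orbits_infinite {B : Type} {G : Subgroup (Equiv.Perm B)} (ho : Ordered G)
    (hfix : ∀ b : B, ∃ g ∈ G, g b ≠ b) (b : B) : {x | ∃ g ∈ G, g b = x}.Infinite := by
  classical
  obtain ⟨L, hL, hG⟩ := ho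
  intro hfin
  obtain ⟨m, ⟨g0, hg0, hm⟩, hmax⟩ : ∃ m ∈ {x | ∃ g ∈ G, g b = x},
      ∀ x ∈ {x | ∃ g ∈ G, g b = x}, ¬ L m x := by
    have hne : {x | ∃ g ∈ G, g b = x}.Nonempty := ⟨b, 1, G.one_mem, rfl⟩
    have hwf : {x | ∃ g ∈ G, g b = x}.WellFoundedOn (fun x y => L y x) := by
      have : IsStrictOrder B (fun x y => L y x) :=
        { irrefl := fun x h => irrefl_of L x h
          trans := fun x y z h1 h2 => trans_of L h2 h1 }
      exact hfin.wellFoundedOn
    obtain ⟨m, -, hmin⟩ := WellFounded.has_min hwf Set.univ ⟨⟨hne.some, hne.some_mem⟩, trivial⟩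
    exact ⟨m.1, m.2, fun x hx => hmin ⟨x, hx⟩ trivial⟩
  obtain ⟨g, hg, hgm⟩ := hfix m
  have h1 : g m ∈ {x | ∃ g ∈ G, g b = x} := ⟨g * g0, G.mul_mem hg hg0, by
    rw [Equiv.Perm.mul_apply, hm]⟩
  have h2 : g⁻¹ m ∈ {x | ∃ g ∈ G, g b = x} := ⟨g⁻¹ * g0, G.mul_mem (G.inv_mem hg) hg0, by
    rw [Equiv.Perm.mul_apply, hm]⟩
  rcases trichotomous_of L m (g m) with h3 | h3 | h3
  · exact hmax _ h1 h3
  · exact hgm h3.symm
  · apply hmax _ h2
    have h4 := (hG g⁻¹ (G.inv_mem hg) (g m) m).1 h3
    have e : g⁻¹ (g m) = m := by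
      rw [← Equiv.Perm.mul_apply, inv_mul_cancel, Equiv.Perm.one_apply]
    rwa [e] at h4

theorem hard_of {B : Type} {G : Subgroup (Equiv.Perm B)} (ho : Ordered G) {r t : ℕ} {k : Fin t → ℕ}
    {R : ∀ j, Set (Fin (k j) → B)} (h : Run7.h380.IN.InjDichotomy G r R) : AllHard G r R := by
  obtain ⟨L, hL, hG⟩ := ho
  intro ι _ arΓ Γ h1 h2 h3 s e hs
  rcases h ι arΓ Γ h1 h2 h3 s e hs with h4 | h4
  · exact absurd h4 (Run7.h380.IN.not_triv_of_order L (tournament hL) hG)
  · exact h4

theorem prob_mono {Ω : Type} {μ : Set Ω → ℝ} (hμ : IsLaw μ) {P P' : Set Ω → Prop}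
    (h : ∀ Θ, P Θ → P' Θ) : prob μ P ≤ prob μ P' := by
  unfold prob
  have e : ∀ Q : Set Ω → Prop, ∑' Θ : {Θ : Set Ω // Q Θ}, μ Θ.1 =
      ∑' Θ, Set.indicator {Θ | Q Θ} μ Θ := fun Q => tsum_subtype {Θ | Q Θ} μ
  rw [e, e]
  refine Summable.tsum_le_tsum (fun Θ => ?_) (hμ.2.summable.indicator _)
    (hμ.2.summable.indicator _)
  exact Set.indicator_le_indicator_of_subset h hμ.1 Θ

theorem result {B σ : Type} [Infinite B] [Finite σ] {arB : σ → ℕ} (Δ : Str σ arB B)
    (hΔ : Homogeneous Δ) (hord : Ordered (autGroup Δ))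
    (hfix : ∀ b : B, ∃ g ∈ autGroup Δ, g b ≠ b) :
    -- random injective relations
    (∀ r : ℕ, ∃ N : ℕ, 0 < N ∧
      ∀ (t : ℕ) (k : Fin t → ℕ) (n n' : ℕ), N ≤ n → (∀ j, n ≤ k j ∧ k j ≤ n') →
        (∀ Θ j, Invar (autGroup Δ) (irel (autGroup Δ) k Θ j) ∧
          ∀ u ∈ irel (autGroup Δ) k Θ j, Function.Injective u) ∧
        ∀ ε : ℝ, 0 ≤ ε → ε ≤ 1 → ∀ μ : Set (IOmega (autGroup Δ) k) → ℝ, IsLaw μ →
          FiniteEnergy ε μ →
          prob μ (fun Θ => ¬ AllHard (autGroup Δ) r (irel (autGroup Δ) k Θ)) ≤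
            t * (2 ^ (N * n' ^ N) * (1 - ε ^ N) ^ (2 ^ (n / N)))) ∧
    -- the number of exceptions
    (∀ r : ℕ, ∃ N : ℕ, 0 < N ∧ ∀ k : ℕ, N ≤ k →
      Finite (InjRel (autGroup Δ) k) ∧
      (Nat.card {R : InjRel (autGroup Δ) k //
        ¬ AllHard (autGroup Δ) r (t := 1) (k := fun _ => k) (fun _ => R.1)} : ℝ) ≤
        2 ^ (N * k ^ N) * (1 - (2⁻¹ : ℝ) ^ N) ^ (2 ^ (k / N)) *
          Nat.card (InjRel (autGroup Δ) k)) := by
  have horb := orbits_infinite hord hfix
  refine ⟨fun r => ?_, fun r => ?_⟩
  · obtain ⟨N, hN, h⟩ := Run7.h380.IN.law_bound Δ hΔ horb r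
    refine ⟨N, hN, ?_⟩
    intro t k n n' hn hk
    refine ⟨fun Θ j => ⟨Run7.h380.IN.irel_invar _ k Θ j, Run7.h380.IN.irel_inj _ k Θ j⟩,
      fun ε hε hε1 μ hμ hFE => le_trans ?_ (h t k n n' hn hk ε hε hε1 μ hμ hFE)⟩
    exact prob_mono hμ fun Θ hΘ hd => hΘ (hard_of hord hd)
  · obtain ⟨N, hN, h⟩ := Run7.h380.IN.count_bound Δ hΔ horb r
    refine ⟨N, hN, fun k hk => ?_⟩
    obtain ⟨h1, h2⟩ := h k hk
    refine ⟨h1, le_trans ?_ h2⟩
    have := h1
    refine Nat.cast_le.2 (Nat.card_le_card_of_injective
      (fun R => ⟨R.1, fun hR => R.2 (hard_of hord hR)⟩) ?_)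
    intro R R' hRR
    have := congrArg Subtype.val hRR
    exact Subtype.ext this

end Pool.Agent.Results.MP_436c39_lc.InjectiveTemplates
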