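import Pool.Agent.Results.MP_436c39_lc.RandomTemplates
import Pool.Agent.Run7.h380.SY.Main

/-!
# Type clones and tractability for almost all templates with prescribed symmetries

Let `𝔹` be a homogeneous structure in a finite relational signature. Fix a group `H` of permutations
of the coordinates `1, ..., k`, for instance the group of all permutations (symmetric relations) or a
cyclic group. The `k`-ary relations which are invariant under the automorphism group of `𝔹` and under
`H` are a vanishing proportion of all the invariant relations. All but an exponentially small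
proportion (in `k`, uniformly in `H`) of them satisfy: every template `𝔸` which consists of this
relation and finitely many invariant relations of arity at most `r`

* has a constant endomorphism, and for all parameters `c_1, ..., c_l` and all `m` the type clone
  contains a constant operation, so that all the templates on the set of the types which it preserves
  have a trivial constraint satisfaction problem; or
* pp-constructs `K_3`, and for all parameters and all `m` the operations of the type clone depend on one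
  variable and are projections if the parameters are forgotten.

The same holds for random relations of several arities at least `n` with a joint law of finite energy on
the unions of the classes of equivalence relations between the orbit equivalence and the orbit
equivalence up to a permutation of the coordinates.
-/

namespace Pool.Agent.Results.MP_436c39_lc.SymmetricTemplates

open Pool.Agent.W994.AR
open Pool.Agent.N455.CS (IsLaw prob FiniteEnergy)
open Run7.h380.SY (Classes relOf SameUpToPerm SymRel)
open Pool.Agent.Results.MP_436c39_lc.RandomTemplates (fix TrivialClone ProjectionClone)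

/-- The statement for all the templates which consist of finitely many invariant relations `Γ` of arity
at most `r` and of at least one of the relations `R j`. -/
def TypeDichotomy {B σ : Type} {arB : σ → ℕ} (𝔹 : Str σ arB B) (r : ℕ) {t : ℕ} {k : Fin t → ℕ}
    (R : ∀ j, Set (Fin (k j) → B)) : Prop :=
  ∀ (ι : Type) [Finite ι] (arΓ : ι → ℕ) (Γ : Str ι arΓ B), (∀ l, arΓ l ≤ r) →
    (∀ l, Invar (autGroup 𝔹) (Γ l)) → ∀ (s : ℕ) (e : Fin s → Fin t), 1 ≤ s →
      (ConstEndo (expand Γ (fun j => R (e j))) ∧
        ¬ PPConstructsK3 (expand Γ (fun j => R (e j))) ∧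
        ∀ (l : ℕ) (c : Fin l → B) (m : ℕ),
          TrivialClone (fix (autGroup 𝔹) c) (expand Γ (fun j => R (e j))) m) ∨
      (PPConstructsK3 (expand Γ (fun j => R (e j))) ∧
        ∀ (l : ℕ) (c : Fin l → B) (m : ℕ),
          ProjectionClone (autGroup 𝔹) c (expand Γ (fun j => R (e j))) m)

theorem type_of {B σ : Type} {arB : σ → ℕ} {𝔹 : Str σ arB B} {r t : ℕ} {k : Fin t → ℕ}
    {R : ∀ j, Set (Fin (k j) → B)} (h : Run7.h380.SY.Dichotomy 𝔹 r R) : TypeDichotomy 𝔹 r R := by
  intro ι _ arΓ Γ h1 h2 s e hs
  rcases h ι arΓ Γ h1 h2 s e hs with h3 | h3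
  · exact Or.inl ⟨h3, not_k3_of_const h3, fun l c m =>
      Pool.Agent.Results.MP_436c39_lc.RandomTemplates.trivial_of_const h3 _ m⟩
  · exact Or.inr ⟨h3.1, fun l c m =>
      Pool.Agent.Results.MP_436c39_lc.RandomTemplates.projection_of_max h3 c m⟩

theorem prob_mono {Ω : Type} {μ : Set Ω → ℝ} (hμ : IsLaw μ) {P P' : Set Ω → Prop}
    (h : ∀ Θ, P Θ → P' Θ) : prob μ P ≤ prob μ P' := by
  unfold prob
  have e : ∀ Q : Set Ω → Prop, ∑' Θ : {Θ : Set Ω // Q Θ}, μ Θ.1 =
      ∑' Θ, Set.indicator {Θ | Q Θ} μ Θ := fun Q => tsum_subtype {Θ | Q Θ} μ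
  rw [e, e]
  refine Summable.tsum_le_tsum (fun Θ => ?_) (hμ.2.summable.indicator _)
    (hμ.2.summable.indicator _)
  exact Set.indicator_le_indicator_of_subset h hμ.1 Θ

theorem result {B σ : Type} [Nontrivial B] [Finite σ] {arB : σ → ℕ} (𝔹 : Str σ arB B)
    (h𝔹 : Homogeneous 𝔹) :
    -- random relations with symmetries
    (∀ r : ℕ, ∃ N Q : ℕ, 0 < N ∧ 0 < Q ∧
      ∀ (t : ℕ) (k : Fin t → ℕ) (n : ℕ), (∀ j, n ≤ k j) →
      ∀ E : ∀ j, Setoid (Fin (k j) → B),
        (∀ j u v, Same (autGroup 𝔹) u v → (E j).r u v) →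
        (∀ j u v, (E j).r u v → SameUpToPerm (autGroup 𝔹) u v) →
        (∀ Θ j, Invar (autGroup 𝔹) (relOf k E Θ j)) ∧
        ∀ ε : ℝ, 0 ≤ ε → ε ≤ 1 → ∀ μ : Set (Classes k E) → ℝ, IsLaw μ → FiniteEnergy ε μ →
          prob μ (fun Θ => ¬ TypeDichotomy 𝔹 r (relOf k E Θ)) ≤
            t * (N * (1 - ε ^ N) ^ (n / Q))) ∧
    -- the number of exceptions among the relations with a prescribed group of symmetries
    (∀ r : ℕ, ∃ N Q : ℕ, 0 < N ∧ 0 < Q ∧
      ∀ (k : ℕ) (H : Subgroup (Equiv.Perm (Fin k))),
        Finite (SymRel (autGroup 𝔹) H) ∧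
        (Nat.card {R : SymRel (autGroup 𝔹) H //
          ¬ TypeDichotomy 𝔹 r (t := 1) (k := fun _ => k) (fun _ => R.1)} : ℝ) ≤
          N * (1 - (2⁻¹ : ℝ) ^ N) ^ (k / Q) * Nat.card (SymRel (autGroup 𝔹) H)) := by
  refine ⟨fun r => ?_, fun r => ?_⟩
  · obtain ⟨N, Q, hN, hQ, h⟩ := Run7.h380.SY.law_bound 𝔹 h𝔹 r
    refine ⟨N, Q, hN, hQ, ?_⟩
    intro t k n hn E hE1 hE2
    refine ⟨fun Θ j => Run7.h380.SY.invar_relOf k E hE1 Θ j,
      fun ε hε hε1 μ hμ hFE => le_trans ?_ (h t k n hn E hE1 hE2 ε hε hε1 μ hμ hFE)⟩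
    exact prob_mono hμ fun Θ hΘ hd => hΘ (type_of hd)
  · obtain ⟨N, Q, hN, hQ, h⟩ := Run7.h380.SY.count_bound 𝔹 h𝔹 r
    refine ⟨N, Q, hN, hQ, fun k H => ?_⟩
    obtain ⟨h1, h2⟩ := h k H
    refine ⟨h1, le_trans ?_ h2⟩
    have := h1
    refine Nat.cast_le.2 (Nat.card_le_card_of_injective
      (fun R => ⟨R.1, fun hR => R.2 (type_of hR)⟩) ?_)
    intro R R' hRR
    have := congrArg Subtype.val hRR
    exact Subtype.ext this

end Pool.Agent.Results.MP_436c39_lc.SymmetricTemplates
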